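import Pool.Agent.N798.S.Stm

/-!
Project S (helper798), part LP (helper803): the logarithm of a polynomial.
-/

set_option autoImplicit false

namespace Pool.Agent.N803.S

open Filter Topology Finset Pool.Agent.N798.S

/-- Part LP. -/
theorem lp : S_LP := by
  intro P hP J
  obtain ⟨G, hG⟩ : ∃ G : ℝ → ℝ, ∀ y, G y = P.reverse.eval y / P.leadingCoeff := ⟨_, fun _ => rfl⟩
  have hG' : G = fun y => P.reverse.eval y / P.leadingCoeff := funext hG
  have hG0 : G 0 = 1 := by
    rw [hG, ← Polynomial.coeff_zero_eq_eval_zero, Polynomial.coeff_zero_reverse, div_self hP.ne']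
  have hGa : AnalyticAt ℝ G 0 := by
    rw [hG']
    have h1 : AnalyticAt ℝ (fun y : ℝ => P.reverse.eval y) 0 := by
      have := AnalyticAt.aeval_polynomial (A := ℝ) (analyticAt_id (𝕜 := ℝ) (z := (0 : ℝ))) P.reverse
      simpa using this
    exact h1.div analyticAt_const hP.ne'
  have hFa : AnalyticAt ℝ (fun y => Real.log (G y)) 0 := by
    exact hGa.log (by rw [hG0]; exact one_pos)
  obtain ⟨p, hp⟩ := hFa
  have hbig := hp.isBigO_sub_partialSum_pow (J + 1)
  obtain ⟨C, hC, hb⟩ := hbig.exists_pos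
  rw [Asymptotics.isBigOWith_iff] at hb
  have hpos : ∀ᶠ y in 𝓝 (0 : ℝ), 0 < G y := by
    have := hGa.continuousAt.eventually (lt_mem_nhds (a := (0 : ℝ)) (by rw [hG0]; exact one_pos))
    exact this
  have htend : Tendsto (fun n : ℕ => ((n : ℝ))⁻¹) atTop (𝓝 0) := tendsto_inv_atTop_nhds_zero_nat
  obtain ⟨n0, hn0⟩ := eventually_atTop.1 (htend.eventually (hb.and hpos))
  refine ⟨fun i => p.coeff (i + 1), C, max n0 1, le_max_right _ _, hC.le, ?_⟩
  intro n hn
  obtain ⟨h1, h2⟩ := hn0 n ((le_max_left _ _).trans hn)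
  have hn1 : 0 < n := (le_max_right _ _).trans hn
  have hnr : (0 : ℝ) < n := by exact_mod_cast hn1
  have hev : P.eval (n : ℝ) = P.leadingCoeff * (n : ℝ) ^ P.natDegree * G (n : ℝ)⁻¹ := by
    have _hinv : Invertible (n : ℝ) := invertibleOfNonzero hnr.ne'
    have h3 := Polynomial.eval₂_reverse_mul_pow (RingHom.id ℝ) (n : ℝ) P
    rw [invOf_eq_inv] at h3
    rw [hG]
    have h4 : Polynomial.eval (n : ℝ) P = Polynomial.eval (n : ℝ)⁻¹ P.reverse * (n : ℝ) ^ P.natDegree := h3.symm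
    rw [h4]
    field_simp
  have hpos' : 0 < P.eval (n : ℝ) := by
    rw [hev]; positivity
  refine ⟨hpos', ?_⟩
  have hlog : Real.log (P.eval (n : ℝ)) = Real.log P.leadingCoeff + P.natDegree * Real.log n +
      Real.log (G (n : ℝ)⁻¹) := by
    rw [hev, Real.log_mul (by positivity) h2.ne', Real.log_mul hP.ne' (by positivity), Real.log_pow]
  rw [zero_add] at h1
  have hps : p.partialSum (J + 1) (n : ℝ)⁻¹ = ∑ i : Fin J, p.coeff (i + 1) / (n : ℝ) ^ ((i : ℕ) + 1) := by
    unfold FormalMultilinearSeries.partialSum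
    rw [Finset.sum_range_succ']
    have h5 : (p 0) (fun _ => (n : ℝ)⁻¹) = 0 := by
      have := hp.coeff_zero (fun _ => (n : ℝ)⁻¹)
      rw [this, hG0, Real.log_one]
    rw [h5, add_zero, Finset.sum_range]
    refine Finset.sum_congr rfl fun i _ => ?_
    rw [FormalMultilinearSeries.apply_eq_pow_smul_coeff, smul_eq_mul, inv_pow]
    field_simp
  rw [hps] at h1
  rw [hlog]
  have e : Real.log P.leadingCoeff + P.natDegree * Real.log n + Real.log (G (n : ℝ)⁻¹) -
      (P.natDegree * Real.log n + Real.log P.leadingCoeff + ∑ i : Fin J, p.coeff (i + 1) / (n : ℝ) ^ ((i : ℕ) + 1)) =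
      Real.log (G (n : ℝ)⁻¹) - ∑ i : Fin J, p.coeff (i + 1) / (n : ℝ) ^ ((i : ℕ) + 1) := by ring
  rw [e, ← Real.norm_eq_abs]
  refine h1.trans (le_of_eq ?_)
  rw [norm_pow, norm_norm, norm_inv, Real.norm_natCast, inv_pow]
  rfl

end Pool.Agent.N803.S
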